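import Pool.Agent.Y208.LQ.Uni
import Pool.Agent.Y208.LQ.Fin

/-!
# MP_4d37d6_al, Q2 (Lie algebras)

Every finitely generated Lie algebra over a prime field with a recursive basis embeds in a simple
finitely presented Lie algebra over the same field.

The theorem is proved for every field `F` such that the structure constants lie in the prime
subfield; for `F = ZMod p` and `F = ℚ` this is no restriction.
-/

set_option autoImplicit false

namespace Pool.Agent.Results.MP_4d37d6_al.LieEmbedding

universe u

/-- The Gödel number of a Lie monomial in `n` letters.  Lie monomials are nonassociative words, i.e.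
elements of the free magma: `of i` is the letter `i`, `mul x y` (i.e. `x * y`) stands for the
bracket of `x` and `y`. -/
def godel {n : ℕ} : FreeMagma (Fin n) → ℕ
  | .of i => 2 * i
  | .mul x y => 2 * Nat.pair (godel x) (godel y) + 1

/-- The value of a Lie monomial at the elements `a i`. -/
def value {L : Type u} [LieRing L] {n : ℕ} (a : Fin n → L) : FreeMagma (Fin n) → L
  | .of i => a i
  | .mul x y => ⁅value a x, value a y⁆

/-- A recursive basis of a Lie algebra with respect to the generators `a i`: the values of the Lie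
monomials `w ∈ Bs` form a linear basis, the set `Bs` is recursive, and an algorithm `nf` writes
every Lie monomial as a linear combination of monomials of `Bs` (together with the fact that the
`a i` generate the Lie algebra, this says that the values of `w ∈ Bs` span).  The output
`(d, [(z₁, b₁), (z₂, b₂), ...])` of the algorithm stands for the linear combination
`(z₁/d) b₁ + (z₂/d) b₂ + ...`, where `zᵢ` are integers and `d` is a natural number with `d ≠ 0` in
`F`.  For `F = ℚ` and `F = ZMod p` these are all linear combinations.  Recursiveness of `Bs` and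
computability of `nf` are expressed with Gödel numbers. -/
def RecursiveBasis (F : Type) {L : Type u} [Field F] [LieRing L] [LieAlgebra F L] {n : ℕ}
    (a : Fin n → L) : Prop :=
  ∃ (Bs : Set (FreeMagma (Fin n)))
    (nf : FreeMagma (Fin n) → ℕ × List (ℤ × FreeMagma (Fin n))),
    ComputablePred (fun k : ℕ => ∃ w ∈ Bs, godel w = k) ∧
    (∃ f : ℕ → ℕ × List (ℤ × ℕ), Computable f ∧
      ∀ w, f (godel w) = ((nf w).1, (nf w).2.map (fun p => (p.1, godel p.2)))) ∧
    LinearIndependent F (fun w : Bs => value a w.1) ∧
    ∀ w, ((nf w).1 : F) ≠ 0 ∧ (∀ p ∈ (nf w).2, p.2 ∈ Bs) ∧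
      ((nf w).1 : F) • value a w = ((nf w).2.map (fun p => (p.1 : F) • value a p.2)).sum

/-- `g` is a finitely presented Lie algebra: it is the image of a free Lie algebra on finitely many
generators under a homomorphism whose kernel is the ideal generated by a finite set. -/
def FinitelyPresented (F g : Type) [Field F] [LieRing g] [LieAlgebra F g] : Prop :=
  ∃ (n : ℕ) (R : Finset (FreeLieAlgebra F (Fin n))) (φ : FreeLieAlgebra F (Fin n) →ₗ⁅F⁆ g),
    Function.Surjective φ ∧
      φ.ker = LieSubmodule.lieSpan F (FreeLieAlgebra F (Fin n)) (R : Set (FreeLieAlgebra F (Fin n)))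

section proofs

theorem godel_eq {n : ℕ} (w : FreeMagma (Fin n)) : godel w = Y208.LQ.code w := by
  induction w using FreeMagma.rec with
  | of i => rfl
  | mul x y ihx ihy =>
    simp only [godel, Y208.LQ.code]
    rw [ihx, ihy]

theorem map_value {F : Type} {L1 : Type u} {L2 : Type} [Field F] [LieRing L1] [LieAlgebra F L1]
    [LieRing L2] [LieAlgebra F L2] {n : ℕ} (χ : L1 →ₗ⁅F⁆ L2) (c : Fin n → L1)
    (w : FreeMagma (Fin n)) : χ (value c w) = Y208.LQ.lev (fun i => χ (c i)) w := by
  induction w using FreeMagma.rec with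
  | of i => rfl
  | mul x y ihx ihy =>
    simp only [Y208.LQ.lev, value]
    rw [LieHom.map_lie, ihx, ihy]

/-- Transport of a recursive basis along an isomorphism. -/
theorem lrb_of_equiv {F : Type} {L : Type u} {L' : Type} [Field F] [LieRing L] [LieAlgebra F L]
    [LieRing L'] [LieAlgebra F L'] (e : L ≃ₗ⁅F⁆ L') {n : ℕ} (a : Fin n → L)
    (hgen : LieSubalgebra.lieSpan F L (Set.range a) = ⊤) (h : RecursiveBasis F a) :
    ∃ (Bs : Set (FreeMagma (Fin n))) (nf : FreeMagma (Fin n) → ℕ × List (ℤ × FreeMagma (Fin n)))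
      (f : ℕ → ℕ × List (ℤ × ℕ)), Y208.LQ.LRB F (fun i => e (a i)) Bs nf f := by
  obtain ⟨Bs, nf, hcomp, ⟨f, hf, hff⟩, hli, h4⟩ := h
  have hv : ∀ w, Y208.LQ.lev (fun i => e (a i)) w = e (value a w) := fun w =>
    (map_value (e : L →ₗ⁅F⁆ L') a w).symm
  refine ⟨Bs, nf, f, ?_, ?_, hf, ?_, ?_, fun w => (h4 w).1, fun w => (h4 w).2.1, ?_⟩
  · rw [eq_top_iff]
    intro x _
    let K : LieSubalgebra F L :=
      (LieSubalgebra.lieSpan F L' (Set.range (fun i => e (a i)))).comap (e : L →ₗ⁅F⁆ L')
    have h1 : LieSubalgebra.lieSpan F L (Set.range a) ≤ K := by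
      rw [LieSubalgebra.lieSpan_le]
      rintro _ ⟨i, rfl⟩
      exact LieSubalgebra.subset_lieSpan ⟨i, rfl⟩
    have h2 : e.symm x ∈ LieSubalgebra.lieSpan F L (Set.range a) := by
      rw [hgen]
      exact LieSubalgebra.mem_top _
    have h3 : e (e.symm x) ∈ LieSubalgebra.lieSpan F L' (Set.range (fun i => e (a i))) := h1 h2
    rwa [LieEquiv.apply_symm_apply] at h3
  · have h1 : (fun k : ℕ => ∃ w ∈ Bs, Y208.LQ.code w = k) = fun k => ∃ w ∈ Bs, godel w = k := by
      funext k
      simp only [godel_eq]
    rw [h1]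
    exact hcomp
  · intro w
    rw [← godel_eq, hff]
    congr 1
    refine List.map_congr_left fun p _ => ?_
    rw [godel_eq]
  · have h1 := hli.map' (e : L ≃ₗ[F] L').toLinearMap (LinearEquiv.ker _)
    have h2 : (fun w : Bs => Y208.LQ.lev (fun i => e (a i)) w.1) =
        (e : L ≃ₗ[F] L').toLinearMap ∘ fun w : Bs => value a w.1 := by
      funext w
      exact hv w.1
    rw [h2]
    exact h1
  · intro w
    have h1 := congrArg (e : L ≃ₗ[F] L').toLinearMap (h4 w).2.2
    rw [map_smul, map_list_sum, List.map_map] at h1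
    rw [hv]
    refine h1.trans ?_
    congr 1
    refine List.map_congr_left fun p _ => ?_
    simp only [Function.comp, map_smul]
    rw [hv]
    rfl

end proofs

/-- **Main theorem.** Let `F` be a field and let `L` be a Lie algebra over `F`, generated by
`a 0, ..., a (n-1)`, which has a recursive basis.  Then `L` embeds in a simple finitely presented
Lie algebra over `F`.  (`LieAlgebra.IsSimple` says that the only ideals are `⊥` and `⊤` and that the
bracket is not zero.) -/
theorem result (F : Type) [Field F] (L : Type u) [LieRing L] [LieAlgebra F L] (n : ℕ)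
    (a : Fin n → L) (hgen : LieSubalgebra.lieSpan F L (Set.range a) = ⊤)
    (h : RecursiveBasis F a) :
    ∃ (g : Type) (_ : LieRing g) (_ : LieAlgebra F g),
      FinitelyPresented F g ∧ LieAlgebra.IsSimple F g ∧
        ∃ φ : L →ₗ⁅F⁆ g, Function.Injective φ := by
  obtain ⟨L', _, _, ⟨e⟩⟩ := Y208.LQ.exists_type a hgen
  obtain ⟨Bs, nf, f, hL⟩ := lrb_of_equiv e a hgen h
  obtain ⟨g, _, _, hg, hs, φ, hφ⟩ 
    := Y208.LQ.t_main F L' n (fun i => e (a i)) Bs nf f hL
  exact ⟨g, inferInstance, inferInstance, hg, hs, φ.comp (e : L →ₗ⁅F⁆ L'),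
    hφ.comp e.injective⟩

end Pool.Agent.Results.MP_4d37d6_al.LieEmbedding
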